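import Mathlib

set_option autoImplicit false

namespace Pool.Agent.Results.MP_824d98_co.Taylor

open SimpleGraph

/-- `N_k(x, G)`: the subgraph induced by the vertices at distance exactly `k` from `x` -/
def nb {W : Type} (G : SimpleGraph W) (k : ℕ) (x : W) : SimpleGraph {y | G.edist x y = k} :=
  G.induce {y | G.edist x y = k}

/-- `(1,2)`-realizable (by a finite graph with at least one vertex) -/
def Realizable {U : Type} (H : SimpleGraph U) : Prop :=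
  ∃ (W : Type) (_ : Fintype W) (_ : Nonempty W) (G : SimpleGraph W),
    ∀ x, Nonempty (nb G 1 x ≃g H) ∧ Nonempty (nb G 2 x ≃g H)

def VertexTransitive {U : Type} (H : SimpleGraph U) : Prop :=
  ∀ u v, ∃ φ : H ≃g H, φ u = v

abbrev A := ZMod 6 × ZMod 6 × ZMod 2

def s (d : A) : Prop :=
  (d.1 ≠ 0 ∨ d.2.1 ≠ 0) ∧ ((d.1 = 0 ∨ d.2.1 = 0 ∨ d.1 + d.2.1 = 0) ↔ d.2.2 = 0)

instance : DecidablePred s := fun _ => inferInstanceAs (Decidable (_ ∧ _))

def G : SimpleGraph A where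
  Adj x y := s (y - x)
  symm := ⟨fun x y h => by
    have : ∀ d, s d → s (-d) := by decide +kernel
    simpa using this _ h⟩
  loopless := ⟨fun x h => by
    have : ¬ s 0 := by decide
    exact this (by simpa using h)⟩

instance : DecidableRel G.Adj := fun x y => inferInstanceAs (Decidable (s (y - x)))

def H : SimpleGraph {d | s d} := G.induce {d | s d}

def t : A := (0, 0, 1)

lemma two (x y : A) : G.edist x y = (2 : ℕ) ↔ s (y - x - t) := by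
  have key : ∀ d : A, (d ≠ 0 ∧ ¬ s d ∧ ∃ e, s e ∧ s (d - e)) ↔ s (d - t) := by decide +kernel
  rw [← key, Nat.cast_ofNat, edist_eq_two_iff]
  refine and_congr (by rw [sub_ne_zero]; exact ne_comm) (and_congr Iff.rfl ⟨?_, ?_⟩)
  · rintro ⟨z, h1, h2⟩
    refine ⟨z - x, h1, ?_⟩
    have : s (y - z) := (G.adj_symm h2 :)
    simpa using this
  · rintro ⟨e, h1, h2⟩
    refine ⟨x + e, show s (x + e - x) by simpa using h1, G.adj_symm (show s (y - (x + e)) from ?_)⟩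
    rwa [← sub_sub]

def tr (k : ℕ) (x c : A) (h : ∀ y, G.edist x y = k ↔ s (y - c)) : nb G k x ≃g H where
  toEquiv := (Equiv.subRight c).subtypeEquiv h
  map_rel_iff' {a b} := by
    show s ((b.1 - c) - (a.1 - c)) ↔ s (b.1 - a.1)
    rw [sub_sub_sub_cancel_right]

/-- lying in a 6-clique -/
def P (u : A) : Prop :=
  ∃ a, (s a ∧ G.Adj u a) ∧ ∃ b, (s b ∧ G.Adj u b ∧ G.Adj a b) ∧
    ∃ c, (s c ∧ G.Adj u c ∧ G.Adj a c ∧ G.Adj b c) ∧
    ∃ d, (s d ∧ G.Adj u d ∧ G.Adj a d ∧ G.Adj b d ∧ G.Adj c d) ∧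
    ∃ e, s e ∧ G.Adj u e ∧ G.Adj a e ∧ G.Adj b e ∧ G.Adj c e ∧ G.Adj d e

instance : DecidablePred P := fun _ => by unfold P; infer_instance

lemma nP : ¬ P (0, 1, 0) := by decide +kernel

lemma yP : P (0, 3, 0) := by decide +kernel

/-- There is a regular `(1,2)`-realizable graph that is not vertex-transitive. -/
theorem result : ∃ (U : Type) (_ : Fintype U) (H : SimpleGraph U),
    (∃ r : ℕ, ∀ v, (H.neighborSet v).ncard = r) ∧ Realizable H ∧ ¬ VertexTransitive H := by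
  refine ⟨{d | s d}, inferInstance, H, ⟨18, fun v => ?_⟩, ⟨A, inferInstance, inferInstance, G, fun x =>
    ⟨⟨tr 1 x x fun y => by rw [Nat.cast_one, edist_eq_one_iff_adj]; rfl⟩,
      ⟨tr 2 x (x + t) fun y => by rw [two, sub_sub]⟩⟩⟩, fun h => nP ?_⟩
  · have key : ∀ u, s u → (Finset.univ.filter fun w => s w ∧ G.Adj u w).card = 18 := by
      decide +kernel
    rw [← key v.1 v.2, ← Set.ncard_image_of_injective _ Subtype.val_injective, ← Set.ncard_coe_finset]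
    congr 1
    ext w
    simp only [Set.mem_image, mem_neighborSet, Finset.coe_filter, Finset.mem_univ, true_and,
      Set.mem_ofPred_eq]
    exact ⟨fun ⟨z, h, e⟩ => e ▸ ⟨z.2, h⟩, fun h => ⟨⟨w, h.1⟩, h.2, rfl⟩⟩
  · obtain ⟨φ, hφ⟩ := h ⟨(0, 3, 0), by decide⟩ ⟨(0, 1, 0), by decide⟩
    obtain ⟨a, ⟨a0, a1⟩, b, ⟨b0, b1, b2⟩, c, ⟨c0, c1, c2, c3⟩, d, ⟨d0, d1, d2, d3, d4⟩,
      e, e0, e1, e2, e3, e4, e5⟩ := yP
    have m : ∀ {x y : A} (hx : s x) (hy : s y), G.Adj x y → G.Adj (φ ⟨x, hx⟩).1 (φ ⟨y, hy⟩).1 :=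
      fun {x y} hx hy h => (φ.map_rel_iff (a := ⟨x, hx⟩) (b := ⟨y, hy⟩)).2 h
    have u0 : s (0, 3, 0) := by decide
    have hu : (φ ⟨(0, 3, 0), u0⟩).1 = (0, 1, 0) := congrArg Subtype.val hφ
    rw [← hu]
    exact ⟨_, ⟨(φ ⟨a, a0⟩).2, m u0 a0 a1⟩, _, ⟨(φ ⟨b, b0⟩).2, m u0 b0 b1, m a0 b0 b2⟩,
      _, ⟨(φ ⟨c, c0⟩).2, m u0 c0 c1, m a0 c0 c2, m b0 c0 c3⟩,
      _, ⟨(φ ⟨d, d0⟩).2, m u0 d0 d1, m a0 d0 d2, m b0 d0 d3, m c0 d0 d4⟩,
      _, (φ ⟨e, e0⟩).2, m u0 e0 e1, m a0 e0 e2, m b0 e0 e3, m c0 e0 e4, m d0 e0 e5⟩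

end Pool.Agent.Results.MP_824d98_co.Taylor
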